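import Pool.Agent.W169.AF.Stm2

set_option autoImplicit false

/-! Project AF: heat flow of the completed functions, whole critical strip. -/

namespace Pool.Agent.W462.AF

open Finset Filter Topology MeasureTheory
open Pool.Agent.H24R2.DZ (NN ra)
open Pool.Agent.W169.AF

noncomputable section

theorem FS_mono {Q : ℕ} {f g : (q : ℕ) → DirichletCharacter ℂ q → ℝ}
    (h : ∀ q, 2 ≤ q → q ≤ Q → ∀ χ ∈ PC q, f q χ ≤ g q χ) : FS Q f ≤ FS Q g := by
  unfold FS
  refine Finset.sum_le_sum fun q hq => Finset.sum_le_sum fun χ hχ => ?_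
  rw [Finset.mem_Icc] at hq
  exact h q hq.1 hq.2 χ hχ

theorem FS_sum {ι : Type} (Q : ℕ) (s : Finset ι)
    (f : ι → (q : ℕ) → DirichletCharacter ℂ q → ℝ) :
    FS Q (fun q χ => ∑ i ∈ s, f i q χ) = ∑ i ∈ s, FS Q (f i) := by
  unfold FS
  have h1 : ∀ q ∈ Icc 2 Q, ∑ χ ∈ PC q, ∑ i ∈ s, f i q χ = ∑ i ∈ s, ∑ χ ∈ PC q, f i q χ :=
    fun q _ => Finset.sum_comm
  rw [Finset.sum_congr rfl h1, Finset.sum_comm]

theorem card_PC_le (q : ℕ) (hq : 2 ≤ q) : ((PC q).card : ℝ) ≤ q := by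
  classical
  have : NeZero q := ⟨by omega⟩
  have h1 : (PC q).card ≤ Fintype.card (DirichletCharacter ℂ q) := Finset.card_le_univ _
  have h2 : Fintype.card (DirichletCharacter ℂ q) = q.totient := by
    rw [← Nat.card_eq_fintype_card]
    exact DirichletCharacter.card_eq_totient_of_hasEnoughRootsOfUnity ℂ q
  have h3 := Nat.totient_le q
  exact_mod_cast h1.trans (h2.le.trans h3)

theorem cnt_triv (Q : ℕ) (P : (q : ℕ) → DirichletCharacter ℂ q → Prop) :
    cnt Q P ≤ (Q : ℝ) ^ 2 := by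
  classical
  unfold cnt FS
  calc ∑ q ∈ Icc 2 Q, ∑ χ ∈ PC q, (if P q χ then (1 : ℝ) else 0)
      ≤ ∑ q ∈ Icc 2 Q, (Q : ℝ) := by
        refine Finset.sum_le_sum fun q hq => ?_
        rw [Finset.mem_Icc] at hq
        calc ∑ χ ∈ PC q, (if P q χ then (1 : ℝ) else 0) ≤ ∑ χ ∈ PC q, (1 : ℝ) := by
              refine Finset.sum_le_sum fun χ _ => ?_
              split_ifs
              · exact le_rfl
              · exact zero_le_one
          _ = ((PC q).card : ℝ) := by rw [Finset.sum_const, nsmul_eq_mul, mul_one]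
          _ ≤ q := card_PC_le q hq.1
          _ ≤ Q := by exact_mod_cast hq.2
    _ = ((Icc 2 Q).card : ℝ) * Q := by rw [Finset.sum_const, nsmul_eq_mul]
    _ ≤ (Q : ℝ) * Q := by
        apply mul_le_mul_of_nonneg_right _ (Nat.cast_nonneg Q)
        have : (Icc 2 Q).card ≤ Q := by
          rw [Nat.card_Icc]
          omega
        exact_mod_cast this
    _ = (Q : ℝ) ^ 2 := by ring

/-- Lower bound for the Gamma factors on a compact set. -/
theorem gamma_low (B : ℝ) (hB : 0 ≤ B) : ∃ m : ℝ, 0 < m ∧ ∀ s : ℂ, 1 / 2 ≤ s.re → s.re ≤ 1 →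
    |s.im| ≤ B → m ≤ ‖Complex.Gammaℝ s‖ ∧ m ≤ ‖Complex.Gammaℝ (s + 1)‖ := by
  have hc : Continuous (fun s : ℂ => (Complex.Gammaℝ s)⁻¹) :=
    Complex.differentiable_Gammaℝ_inv.continuous
  obtain ⟨M, hM⟩ := (isCompact_closedBall (0 : ℂ) (B + 3)).exists_bound_of_continuousOn
    hc.continuousOn
  have hM0 : 0 ≤ M := (norm_nonneg _).trans (hM 0 (Metric.mem_closedBall_self (by linarith)))
  have key : ∀ s : ℂ, 0 < s.re → ‖s‖ ≤ B + 3 → 1 / (M + 1) ≤ ‖Complex.Gammaℝ s‖ := by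
    intro s hs hn
    have h1 := hM s (by rw [mem_closedBall_zero_iff]; exact hn)
    rw [norm_inv] at h1
    have h2 : 0 < ‖Complex.Gammaℝ s‖ := norm_pos_iff.mpr (Complex.Gammaℝ_ne_zero_of_re_pos hs)
    rw [div_le_iff₀ (by linarith)]
    rw [inv_le_iff_one_le_mul₀ h2] at h1
    nlinarith
  refine ⟨1 / (M + 1), by positivity, fun s h1 h2 h3 => ?_⟩
  have hn : ‖s‖ ≤ 1 + B := by
    refine (Complex.norm_le_abs_re_add_abs_im s).trans ?_
    have : |s.re| ≤ 1 := by
      rw [abs_le]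
      constructor <;> linarith
    linarith
  refine ⟨key s (by linarith) (by linarith), key (s + 1) ?_ ?_⟩
  · rw [Complex.add_re, Complex.one_re]
    linarith
  · refine (norm_add_le _ _).trans ?_
    rw [norm_one]
    linarith

theorem LC_low {m B : ℝ} (hm : ∀ s : ℂ, 1 / 2 ≤ s.re → s.re ≤ 1 →
    |s.im| ≤ B → m ≤ ‖Complex.Gammaℝ s‖ ∧ m ≤ ‖Complex.Gammaℝ (s + 1)‖) (hm0 : 0 < m)
    {q : ℕ} (hq : 2 ≤ q) (χ : DirichletCharacter ℂ q) (s : ℂ) (h1 : 1 / 2 ≤ s.re)
    (h2 : s.re ≤ 1) (h3 : |s.im| ≤ B) : m * ‖LF q χ s‖ ≤ ‖LC q χ s‖ := by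
  have hq0 : q ≠ 0 := by omega
  have : NeZero q := ⟨hq0⟩
  have e1 : LF q χ s = DirichletCharacter.LFunction χ s := by
    unfold LF
    rw [dif_neg hq0]
  have e2 : LC q χ s = (q : ℂ) ^ (s / 2) * DirichletCharacter.completedLFunction χ s := by
    unfold LC
    rw [dif_neg hq0]
  have e3 := DirichletCharacter.LFunction_eq_completed_div_gammaFactor χ s (Or.inr (by omega))
  have hg : m ≤ ‖DirichletCharacter.gammaFactor χ s‖ := by
    obtain ⟨g1, g2⟩ := hm s h1 h2 h3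
    rcases χ.even_or_odd with hχ | hχ
    · rw [hχ.gammaFactor_def]
      exact g1
    · rw [hχ.gammaFactor_def]
      exact g2
  have hg0 : DirichletCharacter.gammaFactor χ s ≠ 0 := norm_pos_iff.mp (hm0.trans_le hg)
  have e4 : DirichletCharacter.completedLFunction χ s =
      DirichletCharacter.gammaFactor χ s * DirichletCharacter.LFunction χ s := by
    rw [e3]
    field_simp
  have hqn : 1 ≤ ‖(q : ℂ) ^ (s / 2)‖ := by
    rw [Complex.norm_natCast_cpow_of_pos (by omega)]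
    apply Real.one_le_rpow
    · exact_mod_cast (by omega : 1 ≤ q)
    · have : (s / 2).re = s.re / 2 := by
        rw [Complex.div_ofNat_re]
      rw [this]
      linarith
  rw [e1, e2, e4, norm_mul, norm_mul]
  have h5 : 0 ≤ ‖DirichletCharacter.LFunction χ s‖ := norm_nonneg _
  calc m * ‖DirichletCharacter.LFunction χ s‖
      ≤ ‖DirichletCharacter.gammaFactor χ s‖ * ‖DirichletCharacter.LFunction χ s‖ :=
        mul_le_mul_of_nonneg_right hg h5
    _ ≤ ‖(q : ℂ) ^ (s / 2)‖ *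
        (‖DirichletCharacter.gammaFactor χ s‖ * ‖DirichletCharacter.LFunction χ s‖) :=
        le_mul_of_one_le_left (by positivity) hqn

/-- Growth in the normalised variable. -/
theorem grow {C1 B : ℝ} (hC1 : 0 < C1) (hB : 0 ≤ B) {q : ℕ} {χ : DirichletCharacter ℂ q}
    (h : ∀ s : ℂ, ‖LC q χ s‖ ≤
      Real.exp (C1 * (1 + ‖s‖) * (Real.log q + Real.log (2 + ‖s‖))))
    {L t0 : ℝ} (hL : 1 ≤ L) (hqL : Real.log q ≤ L) (ht0 : |t0| ≤ B) (z : ℂ) :
    ‖LC q χ (Complex.I * t0 + (1 / 2 + z / (L : ℂ)))‖ ≤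
      Real.exp (C1 * (2 + B) * (4 + B) * (L + ‖z‖) * (1 + Real.log (2 + ‖z‖ / L))) := by
  have hL0 : 0 < L := by linarith
  refine (h _).trans (Real.exp_le_exp.2 ?_)
  set y := ‖z‖ / L with hy
  have hy0 : 0 ≤ y := by positivity
  set s : ℂ := Complex.I * t0 + (1 / 2 + z / (L : ℂ)) with hsdef
  have hs : ‖s‖ ≤ B + (1 / 2 + y) := by
    have e1 : ‖z / (L : ℂ)‖ = y := by
      rw [norm_div, Complex.norm_real, Real.norm_eq_abs, abs_of_pos hL0]
    have e2 : ‖(1 / 2 : ℂ)‖ = 1 / 2 := by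
      rw [norm_div]; norm_num
    have e3 : ‖Complex.I * (t0 : ℂ)‖ ≤ B := by
      rw [norm_mul, Complex.norm_I, one_mul, Complex.norm_real, Real.norm_eq_abs]
      exact ht0
    refine (norm_add_le _ _).trans (add_le_add e3 ?_)
    refine (norm_add_le _ _).trans ?_
    rw [e1, e2]
  have hs0 : 0 ≤ ‖s‖ := norm_nonneg s
  have hlog2 : Real.log (2 + ‖s‖) ≤ (2 + B) + Real.log (2 + y) := by
    have h1 : Real.log (2 + ‖s‖) ≤ Real.log ((3 + B) * (2 + y)) := by
      apply Real.log_le_log (by positivity)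
      nlinarith [mul_nonneg hB hy0]
    rw [Real.log_mul (by positivity) (by positivity)] at h1
    have h2 : Real.log (3 + B) ≤ (3 + B) - 1 := Real.log_le_sub_one_of_pos (by linarith)
    linarith
  have hlogy : 0 ≤ Real.log (2 + y) := Real.log_nonneg (by linarith)
  have hzL : ‖z‖ = y * L := by rw [hy]; field_simp
  rw [hzL]
  have ha : 1 + ‖s‖ ≤ (2 + B) * (1 + y) := by nlinarith [mul_nonneg hB hy0]
  have hb : Real.log q + Real.log (2 + ‖s‖) ≤ (4 + B) * L * (1 + Real.log (2 + y)) := by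
    have h1 : (2 + B) ≤ (2 + B) * L := le_mul_of_one_le_right (by linarith) hL
    have h2 : Real.log (2 + y) ≤ L * Real.log (2 + y) := le_mul_of_one_le_left hlogy hL
    nlinarith [mul_nonneg (mul_nonneg (by linarith : (0 : ℝ) ≤ 3 + B) hL0.le) hlogy]
  have hb0 : 0 ≤ Real.log q + Real.log (2 + ‖s‖) := by
    have h1 : 0 ≤ Real.log q := Real.log_natCast_nonneg q
    have h2 : 0 ≤ Real.log (2 + ‖s‖) := Real.log_nonneg (by linarith)
    linarith
  calc C1 * (1 + ‖s‖) * (Real.log q + Real.log (2 + ‖s‖)) ≤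
        C1 * ((2 + B) * (1 + y)) * ((4 + B) * L * (1 + Real.log (2 + y))) := by
        apply mul_le_mul _ hb hb0 (by positivity)
        exact mul_le_mul_of_nonneg_left ha hC1.le
    _ = C1 * (2 + B) * (4 + B) * (L + y * L) * (1 + Real.log (2 + y)) := by ring

/-- Change of variables. -/
theorem heat_cv {f : ℂ → ℂ} {L t : ℝ} (hL : 0 < L) (z : ℂ) :
    (∫ u : ℝ, ((Real.exp (-(u ^ 2 / (8 * (t * L ^ 2 / 2)))) : ℝ) : ℂ) *
      f (1 / 2 + (z + (u : ℂ)) / (L : ℂ))) =
      (L : ℂ) * HFl t f (1 / 2 + (L : ℂ)⁻¹ * z) := by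
  have hLc : (L : ℂ) ≠ 0 := by exact_mod_cast hL.ne'
  have h := MeasureTheory.Measure.integral_comp_mul_left
    (fun u : ℝ => ((Real.exp (-(u ^ 2 / (8 * (t * L ^ 2 / 2)))) : ℝ) : ℂ) *
      f (1 / 2 + (z + (u : ℂ)) / (L : ℂ))) L
  have h2 : (∫ u : ℝ, (fun u : ℝ => ((Real.exp (-(u ^ 2 / (8 * (t * L ^ 2 / 2)))) : ℝ) : ℂ) *
      f (1 / 2 + (z + (u : ℂ)) / (L : ℂ))) (L * u)) = HFl t f (1 / 2 + (L : ℂ)⁻¹ * z) := by
    unfold HFl
    congr 1
    ext u
    have e1 : (L * u) ^ 2 / (8 * (t * L ^ 2 / 2)) = u ^ 2 / (4 * t) := by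
      have : 8 * (t * L ^ 2 / 2) = L ^ 2 * (4 * t) := by ring
      rw [this, mul_pow, mul_div_mul_left _ _ (by positivity)]
    have e2 : 1 / 2 + (z + ((L * u : ℝ) : ℂ)) / (L : ℂ) = 1 / 2 + (L : ℂ)⁻¹ * z + (u : ℂ) := by
      push_cast
      field_simp
      ring
    simp only
    rw [e1, e2]
  rw [h2] at h
  rw [h, Complex.real_smul, abs_of_pos (inv_pos.2 hL)]
  push_cast
  rw [← mul_assoc, mul_inv_cancel₀ hLc, one_mul]

theorem HFl_shift (t t0 : ℝ) (ω : ℂ) (f : ℂ → ℂ) (s : ℂ) :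
    HFl t (fun w => ω * f (Complex.I * t0 + w)) s = ω * HFl t f (Complex.I * t0 + s) := by
  unfold HFl
  rw [← MeasureTheory.integral_const_mul]
  congr 1
  ext u
  have : Complex.I * (t0 : ℂ) + (s + (u : ℂ)) = Complex.I * (t0 : ℂ) + s + (u : ℂ) := by ring
  simp only
  rw [this]
  ring

/-- If a character is good at all scales, then the zeros of the heat flow are on the line. -/
theorem good_heatw {C' η a0 c0 : ℝ} (ha0 : 1 ≤ a0) (hc00 : 0 < c0)
    (hLOH : ∀ (a L : ℝ) (J : ℕ) (G : ℂ → ℂ), a0 ≤ a → a ≤ c0 * L → L / 400 ≤ 2 ^ J * a →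
    2 ^ J * a ≤ L / 200 →
    Differentiable ℂ G → (∀ z : ℂ, G (-((starRingEnd ℂ) z)) = (starRingEnd ℂ) (G z)) →
    (∀ j : ℕ, j ≤ J → NN (2 ^ j * a) η (fun z => G (2 * (2 ^ j * a) * z))) →
    Real.exp (-(C' * L)) ≤ ‖G (2 * (2 ^ J * a))‖ →
    (∀ z : ℂ, ‖G z‖ ≤ Real.exp (C' * (L + ‖z‖) * (1 + Real.log (2 + ‖z‖ / L)))) →
    ∀ z : ℂ, |z.re| ≤ 10 * 2 ^ J * a → |z.im| ≤ a →
      (∫ u : ℝ, ((Real.exp (-(u ^ 2 / (8 * a))) : ℝ) : ℂ) * G (z + (u : ℂ))) = 0 →
      z.re = 0 ∧ deriv (fun z => ∫ u : ℝ, ((Real.exp (-(u ^ 2 / (8 * a))) : ℝ) : ℂ) *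
        G (z + (u : ℂ))) z ≠ 0)
    {Q q J : ℕ} {χ : DirichletCharacter ℂ q} {c t t0 : ℝ}
    (hL : 1 ≤ Real.log Q) (hc0 : c ≤ c0) (hc1 : c ≤ 1 / 400) (ht : 0 < t)
    (htX : t * Real.log Q ≤ c) (ha : a0 ≤ t * Real.log Q ^ 2 / 2)
    (hJ1 : Real.log Q / 20 ≤ 2 ^ J * (t * Real.log Q ^ 2 / 2))
    (hJ2 : 2 ^ J * (t * Real.log Q ^ 2 / 2) ≤ Real.log Q / 10)
    (hdiff : Differentiable ℂ (LC q χ)) (hsym : ∃ ω : ℂ, ‖ω‖ = 1 ∧ Sy t0 ω q χ)
    (hlow : Real.exp (-(C' * (20 * Real.log Q))) ≤ ‖LC q χ (1 / 2 + Complex.I * t0 +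
      ra Q (2 ^ J * (t * Real.log Q ^ 2 / 2)))‖)
    (hgrow : ∀ z : ℂ, ‖LC q χ (Complex.I * t0 + (1 / 2 + z / ((Real.log Q : ℝ) : ℂ)))‖ ≤
      Real.exp (C' * (20 * Real.log Q + ‖z‖) * (1 + Real.log (2 + ‖z‖ / (20 * Real.log Q)))))
    (hg : ∀ j : ℕ, j ≤ J → NNx η Q (2 ^ j * (t * Real.log Q ^ 2 / 2)) t0 q χ) :
    HeatGoodw c t Q t0 q χ := by
  set L := Real.log Q with hLdef
  set a := t * L ^ 2 / 2 with haa
  obtain ⟨ω, hω, hS⟩ := hsym
  have hL0 : 0 < L := by linarith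
  have hLc : (L : ℂ) ≠ 0 := by exact_mod_cast hL0.ne'
  have hω0 : ω ≠ 0 := by
    intro h
    rw [h, norm_zero] at hω
    exact zero_ne_one hω
  have ha1 : 1 ≤ a := ha0.trans ha
  have hac : a ≤ c / 2 * L := by
    have e : a = (t * L) * L / 2 := by rw [haa]; ring
    rw [e]
    nlinarith
  set f : ℂ → ℂ := fun w => ω * LC q χ (Complex.I * t0 + w) with hf
  set G : ℂ → ℂ := fun z => f (1 / 2 + z / (L : ℂ)) with hG
  have hGd : Differentiable ℂ G := by
    rw [hG, hf]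
    fun_prop
  have hGs : ∀ z : ℂ, G (-((starRingEnd ℂ) z)) = (starRingEnd ℂ) (G z) := by
    intro z
    have h1 := hS (z / (L : ℂ))
    have e1 : Complex.I * (t0 : ℂ) + (1 / 2 + -((starRingEnd ℂ) z) / (L : ℂ)) =
        1 / 2 + Complex.I * t0 - (starRingEnd ℂ) (z / (L : ℂ)) := by
      rw [map_div₀, Complex.conj_ofReal]
      ring
    have e2 : Complex.I * (t0 : ℂ) + (1 / 2 + z / (L : ℂ)) =
        1 / 2 + Complex.I * t0 + z / (L : ℂ) := by ring
    show ω * LC q χ (Complex.I * t0 + (1 / 2 + -((starRingEnd ℂ) z) / (L : ℂ))) =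
      (starRingEnd ℂ) (ω * LC q χ (Complex.I * t0 + (1 / 2 + z / (L : ℂ))))
    rw [e1, e2]
    exact h1
  have hra : ∀ j : ℕ, ((ra Q (2 ^ j * a) : ℝ) : ℂ) = 2 * (2 ^ j * (a : ℂ)) / (L : ℂ) := by
    intro j
    unfold ra
    rw [← hLdef]
    push_cast
    field_simp
  have hac0 : a ≤ c0 * (20 * L) := by
    have h1 : c / 2 * L ≤ c0 * L := mul_le_mul_of_nonneg_right (by linarith) hL0.le
    have h2 : 0 ≤ c0 * L := by positivity
    linarith
  have key := hLOH a (20 * L) J G ha hac0 (by linarith) (by linarith) hGd hGs (by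
      intro j hj
      obtain ⟨h1, -⟩ := hg j hj
      have h2 := h1 ω hω hS
      have e : (fun z => G (2 * (2 ^ j * (a : ℂ)) * z)) =
          fun z => ω * LC q χ (1 / 2 + Complex.I * t0 + ra Q (2 ^ j * a) * z) := by
        funext z
        show ω * LC q χ (Complex.I * t0 + (1 / 2 + 2 * (2 ^ j * (a : ℂ)) * z / (L : ℂ))) = _
        rw [hra]
        congr 2
        ring
      rw [e]
      exact h2) (by
      have e : G (2 * (2 ^ J * (a : ℂ))) =
          ω * LC q χ (1 / 2 + Complex.I * t0 + ra Q (2 ^ J * a)) := by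
        show ω * LC q χ (Complex.I * t0 + (1 / 2 + 2 * (2 ^ J * (a : ℂ)) / (L : ℂ))) = _
        rw [hra]
        congr 2
        ring
      rw [e, norm_mul, hω, one_mul]
      exact hlow) (by
      intro z
      show ‖ω * LC q χ (Complex.I * t0 + (1 / 2 + z / (L : ℂ)))‖ ≤ _
      rw [norm_mul, hω, one_mul]
      exact hgrow z)
  have hcv : ∀ z : ℂ, (∫ u : ℝ, ((Real.exp (-(u ^ 2 / (8 * a))) : ℝ) : ℂ) * G (z + (u : ℂ))) =
      (L : ℂ) * (ω * HFl t (LC q χ) (Complex.I * t0 + (1 / 2 + (L : ℂ)⁻¹ * z))) := by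
    intro z
    have h1 := heat_cv (f := f) (t := t) hL0 z
    rw [← HFl_shift]
    exact h1
  intro s hs1 hs2 hs3
  rw [← hLdef] at hs2
  set z : ℂ := (L : ℂ) * (s - 1 / 2 - Complex.I * t0) with hzdef
  have hz : Complex.I * (t0 : ℂ) + (1 / 2 + (L : ℂ)⁻¹ * z) = s := by
    rw [hzdef]
    field_simp
    ring
  have hre : z.re = L * (s.re - 1 / 2) := by
    rw [hzdef, Complex.re_ofReal_mul]
    simp
  have him : z.im = L * (s.im - t0) := by
    rw [hzdef, Complex.im_ofReal_mul]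
    simp
  have hb1 : |z.re| ≤ 10 * 2 ^ J * a := by
    rw [hre, abs_mul, abs_of_pos hL0]
    have : L * |s.re - 1 / 2| ≤ L * (1 / 2) := mul_le_mul_of_nonneg_left hs1 hL0.le
    linarith
  have hb2 : |z.im| ≤ a := by
    rw [him, abs_mul, abs_of_pos hL0, haa]
    have h5 : L * |s.im - t0| ≤ L * (c * t * L) := mul_le_mul_of_nonneg_left hs2 hL0.le
    have h6 : c * t * L ≤ t * L / 2 := by
      have : 0 < t * L := by positivity
      nlinarith
    nlinarith
  obtain ⟨h8, h9⟩ := key z hb1 hb2 (by rw [hcv, hz, hs3, mul_zero, mul_zero])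
  constructor
  · rw [hre] at h8
    rcases mul_eq_zero.1 h8 with h | h
    · exact absurd h hL0.ne'
    · linarith
  · intro h0
    apply h9
    have e1 : (fun z => ∫ u : ℝ, ((Real.exp (-(u ^ 2 / (8 * a))) : ℝ) : ℂ) * G (z + (u : ℂ))) =
        fun z => ((L : ℂ) * ω) * (fun w => HFl t (LC q χ) ((Complex.I * t0 + 1 / 2) + w))
          ((L : ℂ)⁻¹ * z) := by
      funext w
      rw [hcv]
      simp only
      rw [← mul_assoc, add_assoc]
    have e2 := deriv_comp_mul_left (L : ℂ)⁻¹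
      (fun w => HFl t (LC q χ) ((Complex.I * t0 + 1 / 2) + w)) z
    have hz' : Complex.I * (t0 : ℂ) + 1 / 2 + (L : ℂ)⁻¹ * z = s := by
      rw [add_assoc]
      exact hz
    rw [e1, deriv_const_mul_field, e2, deriv_comp_const_add, hz', h0, smul_zero, mul_zero]

open Classical in
/-- The indicator of a proposition. -/
def ind (p : Prop) : ℝ := if p then 1 else 0

theorem ind_nonneg (p : Prop) : 0 ≤ ind p := by
  unfold ind
  split_ifs
  · exact zero_le_one
  · exact le_rfl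

theorem ind_le_one (p : Prop) : ind p ≤ 1 := by
  unfold ind
  split_ifs
  · exact le_rfl
  · exact zero_le_one

theorem ind_pos {p : Prop} (h : p) : ind p = 1 := if_pos h

theorem ind_neg {p : Prop} (h : ¬ p) : ind p = 0 := if_neg h

theorem cnt_eq (Q : ℕ) (P : (q : ℕ) → DirichletCharacter ℂ q → Prop) :
    cnt Q P = FS Q (fun q χ => ind (P q χ)) := rfl

/-- Growth with `20 L` in place of `L`. -/
theorem grow20 {K L x : ℝ} (hK : 0 ≤ K) (hL : 0 < L) (hx : 0 ≤ x) :
    K * (L + x) * (1 + Real.log (2 + x / L)) ≤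
      20 * K * (20 * L + x) * (1 + Real.log (2 + x / (20 * L))) := by
  have h0 : 0 ≤ x / (20 * L) := by positivity
  have e : x / L = 20 * (x / (20 * L)) := by field_simp
  have h1 : Real.log (2 + x / L) ≤ Real.log (20 * (2 + x / (20 * L))) := by
    apply Real.log_le_log (by rw [e]; positivity)
    rw [e]
    linarith
  rw [Real.log_mul (by norm_num) (by positivity)] at h1
  have h2 : Real.log 20 ≤ 20 - 1 := Real.log_le_sub_one_of_pos (by norm_num)
  have h3 : 0 ≤ Real.log (2 + x / (20 * L)) := Real.log_nonneg (by linarith)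
  have h4 : 1 + Real.log (2 + x / L) ≤ 20 * (1 + Real.log (2 + x / (20 * L))) := by linarith
  have h5 : K * (L + x) ≤ K * (20 * L + x) := mul_le_mul_of_nonneg_left (by linarith) hK
  have h6 : 0 ≤ K * (L + x) := by positivity
  calc K * (L + x) * (1 + Real.log (2 + x / L))
      ≤ K * (L + x) * (20 * (1 + Real.log (2 + x / (20 * L)))) :=
        mul_le_mul_of_nonneg_left h4 h6
    _ ≤ K * (20 * L + x) * (20 * (1 + Real.log (2 + x / (20 * L)))) :=
        mul_le_mul_of_nonneg_right h5 (by positivity)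
    _ = _ := by ring

theorem heatw (hNQ : S_NQw) (hLOH : S_LOH) (hGRO : S_GRO) (hSYM : S_SYM) : S_HEATw := by
  classical
  intro B hB
  obtain ⟨C1, hC1, hGRO⟩ := hGRO
  obtain ⟨m, hm0, hm⟩ := gamma_low B hB
  set Cg : ℝ := 20 * (C1 * (2 + B) * (4 + B)) with hCg
  have hCg0 : 0 < Cg := by positivity
  set Cl : ℝ := 1 + |Real.log m| with hCl
  have hCl0 : 0 < Cl := by positivity
  obtain ⟨η, a0, c0, hη, ha0, hc0, hLOH⟩ := hLOH (Cg + Cl) (by positivity)
  obtain ⟨C2, c2, a2, Q2, hC2, hc2, hc2', ha2, hQ2, h2⟩ := hNQ η hη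
  have hr : Real.exp (-c2) < 1 := by
    rw [Real.exp_lt_one_iff]; linarith
  have hr0 : 0 ≤ Real.exp (-c2) := (Real.exp_pos _).le
  set S := (1 - Real.exp (-c2))⁻¹ with hS
  have hS0 : 0 < S := inv_pos.2 (by linarith)
  set A0 : ℝ := max a0 a2 with hA0
  set Q3 : ℝ := max Q2 (max 3 ((B + 1) ^ (1 / c2))) with hQ3
  set c : ℝ := min (c2 / 2) (min (1 / 400) c0) with hc
  have hcpos : 0 < c := lt_min (by positivity) (lt_min (by norm_num) hc0)
  have hcc1 : c ≤ c2 / 2 := min_le_left _ _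
  have hcc2 : c ≤ 1 / 400 := (min_le_right _ _).trans (min_le_left _ _)
  have hcc3 : c ≤ c0 := (min_le_right _ _).trans (min_le_right _ _)
  have hQ33 : 3 ≤ Q3 := (le_max_left _ _).trans (le_max_right _ _)
  refine ⟨C2 * S + Real.exp (2 * c * A0) + Q3, c, by positivity, hcpos, ?_⟩
  intro Q t t0 hQ ht htQ ht0
  have hQr : (2 : ℝ) ≤ (Q : ℝ) := by exact_mod_cast hQ
  have hQ0 : (0 : ℝ) < (Q : ℝ) := by linarith
  have hlog : 0 < Real.log Q := Real.log_pos (by linarith)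
  have hQsq : 0 < (Q : ℝ) ^ 2 := by positivity
  have hexp0 : 0 < Real.exp (-(c * t * Real.log Q ^ 2)) := Real.exp_pos _
  have hCS : 0 < C2 * S := by positivity
  have hA0' : 0 < Real.exp (2 * c * A0) := Real.exp_pos _
  -- the trivial cases
  have htriv : ∀ K : ℝ, 1 ≤ K * Real.exp (-(c * t * Real.log Q ^ 2)) →
      K ≤ C2 * S + Real.exp (2 * c * A0) + Q3 →
      cnt Q (fun q χ => ¬ HeatGoodw c t Q t0 q χ) ≤
      (C2 * S + Real.exp (2 * c * A0) + Q3) * (Q : ℝ) ^ 2 *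
        Real.exp (-(c * t * Real.log Q ^ 2)) := by
    intro K hK1 hK2
    refine (cnt_triv Q _).trans ?_
    have h3 : 1 ≤ (C2 * S + Real.exp (2 * c * A0) + Q3) *
        Real.exp (-(c * t * Real.log Q ^ 2)) :=
      hK1.trans (mul_le_mul_of_nonneg_right hK2 hexp0.le)
    nlinarith
  by_cases hcase1 : (Q : ℝ) < Q3
  · apply htriv Q3 _ (by linarith)
    have h3 : c * t * Real.log Q ^ 2 ≤ Real.log Q3 := by
      have e1 : c * t * Real.log Q ^ 2 = c * ((t * Real.log Q) * Real.log Q) := by ring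
      have e2 : Real.log Q ≤ Real.log Q3 := Real.log_le_log hQ0 hcase1.le
      have e3 : (t * Real.log Q) * Real.log Q ≤ 1 * Real.log Q :=
        mul_le_mul_of_nonneg_right (by linarith) hlog.le
      have e4 : 0 ≤ (t * Real.log Q) * Real.log Q := by positivity
      rw [e1]
      nlinarith
    have h4 : 0 < Q3 := by linarith
    calc (1 : ℝ) = Real.exp (Real.log Q3) * Real.exp (-Real.log Q3) := by
          rw [← Real.exp_add, add_neg_cancel, Real.exp_zero]
      _ ≤ Q3 * Real.exp (-(c * t * Real.log Q ^ 2)) := by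
          rw [Real.exp_log h4]
          apply mul_le_mul_of_nonneg_left _ h4.le
          apply Real.exp_le_exp.2
          linarith
  by_cases hcase2 : t * Real.log Q ^ 2 / 2 < A0
  · apply htriv (Real.exp (2 * c * A0)) _ (by linarith)
    rw [← Real.exp_add]
    apply Real.one_le_exp
    nlinarith
  push Not at hcase1 hcase2
  have hQQ2 : Q2 ≤ Q := (le_max_left _ _).trans hcase1
  have hQ3' : (3 : ℝ) ≤ Q := hQ33.trans hcase1
  have hQB : B ≤ (Q : ℝ) ^ c2 := by
    have h3 : (B + 1) ^ (1 / c2) ≤ (Q : ℝ) :=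
      ((le_max_right _ _).trans (le_max_right _ _)).trans hcase1
    have h4 : ((B + 1) ^ (1 / c2)) ^ c2 ≤ (Q : ℝ) ^ c2 :=
      Real.rpow_le_rpow (by positivity) h3 hc2.le
    rw [← Real.rpow_mul (by linarith), one_div, inv_mul_cancel₀ hc2.ne', Real.rpow_one] at h4
    linarith
  set L := Real.log Q with hL
  have hL1 : 1 ≤ L := by
    have h3 : Real.exp 1 ≤ (Q : ℝ) := by
      have := Real.exp_one_lt_d9
      linarith
    rw [hL, Real.le_log_iff_exp_le hQ0]
    exact h3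
  set a := t * L ^ 2 / 2 with ha
  have haa0 : a0 ≤ a := (le_max_left _ _).trans hcase2
  have haa2 : a2 ≤ a := (le_max_right _ _).trans hcase2
  have ha1 : 1 ≤ a := ha0.trans haa0
  have hac : a ≤ c / 2 * L := by
    have e : a = (t * L) * L / 2 := by rw [ha]; ring
    rw [e]
    nlinarith
  -- the scale
  obtain ⟨J, hJ1, hJ2⟩ : ∃ J : ℕ, 10 * (2 ^ J * a) ≤ L ∧ L < 10 * (2 ^ (J + 1) * a) := by
    have hex : ∃ k : ℕ, L < 10 * (2 ^ k * a) := by
      obtain ⟨k, hk⟩ := pow_unbounded_of_one_lt L (show (1 : ℝ) < 2 by norm_num)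
      refine ⟨k, ?_⟩
      have : (0 : ℝ) < 2 ^ k := by positivity
      nlinarith
    have hk := Nat.find_spec hex
    have hk0 : Nat.find hex ≠ 0 := by
      intro h0
      rw [h0] at hk
      simp at hk
      nlinarith
    obtain ⟨J, hJ⟩ := Nat.exists_eq_succ_of_ne_zero hk0
    refine ⟨J, ?_, ?_⟩
    · have := Nat.find_min hex (m := J) (by omega)
      linarith
    · rw [hJ] at hk
      exact hk
  have hJb : L / 20 ≤ 2 ^ J * a := by
    rw [pow_succ] at hJ2
    linarith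
  have hJc : 2 ^ J * a ≤ L / 10 := by linarith
  have hpow : ∀ j : ℕ, (j : ℝ) + 1 ≤ 2 ^ j := by
    intro j
    have := Nat.lt_two_pow_self (n := j)
    exact_mod_cast this
  have hjJ : ∀ j : ℕ, j ≤ J → 2 ^ j * a ≤ L / 10 := by
    intro j hj
    have hp : (2 : ℝ) ^ j ≤ 2 ^ J := pow_le_pow_right₀ (by norm_num) hj
    have : 2 ^ j * a ≤ 2 ^ J * a := mul_le_mul_of_nonneg_right hp (by linarith)
    linarith
  -- the pointwise statement
  have hpt : ∀ q, 2 ≤ q → q ≤ Q → ∀ χ ∈ PC q,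
      ind (¬ HeatGoodw c t Q t0 q χ) ≤
      ∑ j ∈ Finset.range (J + 1), ind (¬ NNx η Q (2 ^ j * a) t0 q χ) := by
    intro q hq hqQ χ hχ
    by_cases hall : ∀ j : ℕ, j ≤ J → NNx η Q (2 ^ j * a) t0 q χ
    · have hgood : HeatGoodw c t Q t0 q χ := by
        obtain ⟨d1, -, d2⟩ := hSYM q hq χ hχ
        have hqL : Real.log q ≤ L := by
          rw [hL]
          exact Real.log_le_log (by exact_mod_cast (by omega : 0 < q)) (by exact_mod_cast hqQ)
        refine good_heatw ha0 hc0 hLOH hL1 hcc3 hcc2 ht htQ haa0 hJb hJc d1 (d2 t0) ?_ ?_ hall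
        · obtain ⟨-, hl⟩ := hall J le_rfl
          have hra : ra Q (2 ^ J * a) = 2 ^ J * a / (L / 2) := rfl
          have hra0 : 0 ≤ ra Q (2 ^ J * a) := by
            rw [hra]
            positivity
          have hra1 : ra Q (2 ^ J * a) ≤ 1 / 5 := by
            rw [hra, div_le_iff₀ (by positivity)]
            linarith
          have hre : (1 / 2 + Complex.I * (t0 : ℂ) + ((ra Q (2 ^ J * a) : ℝ) : ℂ)).re =
              1 / 2 + ra Q (2 ^ J * a) := by simp
          have him : (1 / 2 + Complex.I * (t0 : ℂ) + ((ra Q (2 ^ J * a) : ℝ) : ℂ)).im = t0 := by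
            simp
          have h5 := LC_low hm hm0 hq χ (1 / 2 + Complex.I * (t0 : ℂ) + ((ra Q (2 ^ J * a) : ℝ) : ℂ))
            (by rw [hre]; linarith) (by rw [hre]; linarith) (by rw [him]; exact ht0)
          refine le_trans ?_ h5
          refine le_trans ?_ (mul_le_mul_of_nonneg_left hl hm0.le)
          have e2 : (Q : ℝ)⁻¹ = Real.exp (-L) := by
            rw [hL, Real.exp_neg, Real.exp_log hQ0]
          have e7 : m * Real.exp (-L) = Real.exp (Real.log m - L) := by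
            rw [sub_eq_add_neg, Real.exp_add, Real.exp_log hm0]
          rw [e2, e7, ← hL]
          apply Real.exp_le_exp.2
          have e3 : -|Real.log m| ≤ Real.log m := neg_abs_le _
          have e4 : |Real.log m| ≤ |Real.log m| * L := le_mul_of_one_le_right (abs_nonneg _) hL1
          have e5 : 0 ≤ Cg * L := by positivity
          have e6 : (Cg + Cl) * (20 * L) = 20 * (Cg * L) + 20 * L + 20 * (|Real.log m| * L) := by
            rw [hCl]; ring
          rw [e6]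
          linarith
        · intro z
          refine (grow hC1 hB (hGRO q hq χ hχ) hL1 hqL ht0 z).trans (Real.exp_le_exp.2 ?_)
          refine (grow20 (by positivity) (by linarith) (norm_nonneg z)).trans ?_
          have e1 : 0 ≤ 20 * L + ‖z‖ := by positivity
          have e2 : 0 ≤ 1 + Real.log (2 + ‖z‖ / (20 * L)) := by
            have : 0 ≤ Real.log (2 + ‖z‖ / (20 * L)) := Real.log_nonneg (by
              have : 0 ≤ ‖z‖ / (20 * L) := by positivity
              linarith)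
            linarith
          rw [← hCg]
          apply mul_le_mul_of_nonneg_right _ e2
          exact mul_le_mul_of_nonneg_right (by linarith) e1
      rw [ind_neg (not_not.mpr hgood)]
      exact Finset.sum_nonneg fun j _ => ind_nonneg _
    · push Not at hall
      obtain ⟨j, hj1, hj2⟩ := hall
      have h3 : ind (¬ NNx η Q (2 ^ j * a) t0 q χ) ≤
          ∑ j ∈ Finset.range (J + 1), ind (¬ NNx η Q (2 ^ j * a) t0 q χ) :=
        Finset.single_le_sum (f := fun j => ind (¬ NNx η Q (2 ^ j * a) t0 q χ))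
          (fun j _ => ind_nonneg _) (Finset.mem_range.mpr (by omega))
      rw [ind_pos hj2] at h3
      exact (ind_le_one _).trans h3
  have hNj : ∀ j ∈ Finset.range (J + 1), cnt Q (fun q χ => ¬ NNx η Q (2 ^ j * a) t0 q χ) ≤
      C2 * (Q : ℝ) ^ 2 * Real.exp (-(c2 * a)) * Real.exp (-c2) ^ j := by
    intro j hj
    rw [Finset.mem_range] at hj
    have h0 := hpow j
    have hj0 : (0 : ℝ) ≤ j := Nat.cast_nonneg j
    refine (h2 Q (2 ^ j * a) t0 hQQ2 (by nlinarith) (hjJ j (by omega)) (ht0.trans hQB)).trans ?_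
    rw [← Real.exp_nat_mul, mul_assoc (C2 * (Q : ℝ) ^ 2), ← Real.exp_add]
    apply mul_le_mul_of_nonneg_left _ (by positivity)
    apply Real.exp_le_exp.2
    have h3 : (j : ℝ) + a ≤ 2 ^ j * a := by nlinarith
    nlinarith
  calc cnt Q (fun q χ => ¬ HeatGoodw c t Q t0 q χ)
      ≤ FS Q (fun q χ => ∑ j ∈ Finset.range (J + 1), ind (¬ NNx η Q (2 ^ j * a) t0 q χ)) := by
        rw [cnt_eq]
        exact FS_mono hpt
    _ = ∑ j ∈ Finset.range (J + 1), cnt Q (fun q χ => ¬ NNx η Q (2 ^ j * a) t0 q χ) := by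
        rw [FS_sum]
        exact Finset.sum_congr rfl fun j _ => (cnt_eq Q _).symm
    _ ≤ ∑ j ∈ Finset.range (J + 1),
          C2 * (Q : ℝ) ^ 2 * Real.exp (-(c2 * a)) * Real.exp (-c2) ^ j := Finset.sum_le_sum hNj
    _ ≤ C2 * (Q : ℝ) ^ 2 * Real.exp (-(c2 * a)) * S := by
        rw [← Finset.mul_sum]
        apply mul_le_mul_of_nonneg_left _ (by positivity)
        rw [hS, ← tsum_geometric_of_lt_one hr0 hr]
        exact (summable_geometric_of_lt_one hr0 hr).sum_le_tsum _ (fun n _ => pow_nonneg hr0 n)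
    _ ≤ (C2 * S) * (Q : ℝ) ^ 2 * Real.exp (-(c * t * L ^ 2)) := by
        have e1 : C2 * (Q : ℝ) ^ 2 * Real.exp (-(c2 * a)) * S =
            (C2 * S) * (Q : ℝ) ^ 2 * Real.exp (-(c2 * a)) := by ring
        rw [e1]
        apply mul_le_mul_of_nonneg_left _ (by positivity)
        apply Real.exp_le_exp.2
        have e2 : 0 ≤ t * L ^ 2 := by positivity
        have e3 := mul_le_mul_of_nonneg_right hcc1 e2
        rw [ha]
        nlinarith
    _ ≤ (C2 * S + Real.exp (2 * c * A0) + Q3) * (Q : ℝ) ^ 2 *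
        Real.exp (-(c * t * L ^ 2)) := by
        apply mul_le_mul_of_nonneg_right _ hexp0.le
        apply mul_le_mul_of_nonneg_right _ hQsq.le
        linarith

end

end Pool.Agent.W462.AF
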